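import Pool.Agent.R552.FB.Attr

/-!
# Finitude of attractors near compositions of Hamiltonian and dissipative time-one maps

Definitions: `Pool/Agent/R552/FB/Defs.lean` (`TimeOne`, `Comp`), `Pool/Agent/R552/FA/Defs.lean`
(`Fld`, `Traj`, `IsCr`, `Smooth`, `diff`), `Pool/Agent/R552/FA/Ham.lean` (`Jd`, `Dissipative`),
`Pool/Agent/H718R2/G0.lean` (`DiffM`, `strongTop`), `Pool/Agent/H728R2/FA/Defs.lean` (attractors).
-/

set_option autoImplicit false

open scoped Manifold ContDiff Topology

universe u

namespace Pool.Agent.Results.MP_3a2b62_an.HamiltonianCompositions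

open MeasureTheory Pool.Agent.H718R2.G Pool.Agent.R552.FB

open Pool.Agent.R552.FA (Smooth Dissipative)

/-- `G` is a finite composition of time-one maps of vector fields `J dh`, with one smooth function
`h` and smooth fields `J` with `ξ(Jξ) ≥ 0`. -/
def IsComp (n : ℕ) (N : Type u) [TopologicalSpace N] [ChartedSpace (V n) N]
    [IsManifold (𝓡 n) ∞ N] (G : N → N) : Prop :=
  ∃ h : N → ℝ, Smooth (V n) h ∧ Comp (E := V n) (N := N) (Dissipative ⊤) h G

/-- Let `N` be a closed manifold, `1 ≤ r ≤ ∞`, and let `F` be in the closure (in the `C^r`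
topology) of the set of the diffeomorphisms which are finite compositions of time-one maps of vector
fields `J dh`, with a common smooth function `h` and smooth `J : T*N → TN` with `ξ(Jξ) ≥ 0`. Then
every neighbourhood of `F` contains `G` which has finitely many attractors covering `N` up to a null
set, for every measure on `N` (in particular for the volume of a Riemannian metric). -/
theorem result (n : ℕ) (N : Type u) [TopologicalSpace N] [T2Space N] [CompactSpace N]
    [ChartedSpace (V n) N] [IsManifold (𝓡 n) ∞ N] (r : ℕ∞) (hr : 1 ≤ r) (F : DiffM n N r)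
    (hF : ∀ U : Set (DiffM n N r), IsOpen[strongTop n N r] U → F ∈ U → ∃ G ∈ U, IsComp n N G)
    (U : Set (DiffM n N r)) (hU : IsOpen[strongTop n N r] U) (hFU : F ∈ U) :
    ∃ G ∈ U, ∀ (_ : MeasurableSpace N) (μ : Measure N),
      Pool.Agent.H728R2.FA.FiniteAttractors μ G :=
  attr_main (D := Dissipative ⊤) (fun _ h => h) hr F hF U hU hFU

end Pool.Agent.Results.MP_3a2b62_an.HamiltonianCompositions
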