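import Pool.Agent.R552.FA.Ham

/-!
# Finitude of attractors for flows: Hamiltonian and dissipative Hamiltonian vector fields

Definitions: `Pool/Agent/R552/FA/Defs.lean` (vector fields `Fld E N`, class `C^r`, `FiniteAttractors`,
the conclusion of the problem for flows) and `Pool/Agent/R552/FA/Ham.lean`: `Jd J h = J dh`,
`Dissipative r J`, `comb X c W = X + ∑ c i W i`, `Convergent Y`.
-/

set_option autoImplicit false

open scoped Topology ContDiff Manifold

namespace Pool.Agent.Results.MP_3a2b62_an.HamiltonianFlows

open MeasureTheory Set Pool.Agent.R552.FA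

universe u v

/-- Let `N` be a closed manifold, `1 ≤ r ≤ ∞`, and `J : T*N → TN` a `C^r` field of linear maps with
`ξ(Jξ) ≥ 0` for all covectors `ξ`: for instance that of a symplectic form or of a Poisson structure
(then `ξ(Jξ) = 0` and the `J dh` are the Hamiltonian vector fields), that of a Riemannian metric
(gradient fields), or a sum of these (Hamiltonian systems with dissipation). Let `h` be any smooth
function and `X = J dh`. There are finitely many `C^r` vector fields `W i` such that for arbitrarily
small real `c i` the vector field `Y = X + ∑ c i W i` has finitely many zeros, every trajectory of `Y`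
converges to one of them, and the flow of `Y` has finitely many attractors whose basins cover `N` up to
a null set, for every measure on `N`. -/
theorem result (E : Type u) [NormedAddCommGroup E] [NormedSpace ℝ E] [FiniteDimensional ℝ E]
    (N : Type v) [TopologicalSpace N] [T2Space N] [CompactSpace N] [ChartedSpace E N]
    [IsManifold 𝓘(ℝ, E) ∞ N] (r : ℕ∞) (hr : 1 ≤ r) (J : N → (E →L[ℝ] ℝ) →ₗ[ℝ] E)
    (hJ : Dissipative r J) (h : N → ℝ) (hh : Smooth E h) :
    ∃ (ι : Type) (_ : Fintype ι) (W : ι → Fld E N), (∀ i, IsCr r (W i)) ∧
      ∀ δ : ℝ, 0 < δ → ∃ c : ι → ℝ, (∀ i, |c i| < δ) ∧ Convergent (comb (Jd J h) c W) ∧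
        ∀ (_ : MeasurableSpace N) (μ : Measure N), FiniteAttractors μ (comb (Jd J h) c W) :=
  ham_main r hr J hJ h hh

end Pool.Agent.Results.MP_3a2b62_an.HamiltonianFlows
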