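import Pool.Agent.R552.FA.Main

/-!
# Finitude of attractors for flows: vector fields with a non-decreasing function

Definitions (`Pool/Agent/R552/FA/Defs.lean`): `Fld E N` are the vector fields on `N`, `IsCr r X` says
that `X` is `C^r`, `Traj X γ` that `γ` is a trajectory; `omega γ` is its `ω`-limit set; `Nondecreasing`,
`CritPieces` are the hypotheses below, `pert X W ε` is `X + ε W`; `FiniteAttractors μ X` is the
conclusion of the problem for the flow of `X`.
-/

set_option autoImplicit false

open scoped Topology ContDiff Manifold

namespace Pool.Agent.Results.MP_3a2b62_an.LyapunovFlows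

open MeasureTheory Set Pool.Agent.R552.FA

universe u v

/-- Let `X` be a `C¹` vector field on a closed manifold `N` and `h` a smooth function which does not
decrease along the trajectories of `X` (for instance a first integral). Suppose that the trajectories
of `X` which consist of critical points of `h` are contained in finitely many pairwise disjoint closed
invariant transitive sets `M i` of critical points (for instance, that `h` has finitely many critical
points). Then there is a smooth vector field `W` such that for every `ε > 0` each `ω`-limit set of
`X + ε W` is contained in one of the `M i`, and the flow of `X + ε W` has finitely many attractors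
whose basins cover `N` up to a null set, for every measure on `N`; `X + ε W` is `C^r` if `X` is. -/
theorem result (E : Type u) [NormedAddCommGroup E] [NormedSpace ℝ E] [FiniteDimensional ℝ E]
    (N : Type v) [TopologicalSpace N] [T2Space N] [CompactSpace N] [ChartedSpace E N]
    [IsManifold 𝓘(ℝ, E) ∞ N] (X : Fld E N) (hX : IsCr 1 X) (h : N → ℝ) (hh : Nondecreasing X h) (m : ℕ) (M : Fin m → Set N)
    (hM : CritPieces X h m M) :
    ∃ W : Fld E N, IsCr ⊤ W ∧ ∀ ε : ℝ, 0 < ε →
      (∀ r : ℕ∞, IsCr r X → IsCr r (pert X W ε)) ∧
      (∀ γ : ℝ → N, Traj (pert X W ε) γ → ∃ i, omega γ ⊆ M i) ∧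
      ∀ (_ : MeasurableSpace N) (μ : Measure N), FiniteAttractors μ (pert X W ε) :=
  main hX hh m M hM

end Pool.Agent.Results.MP_3a2b62_an.LyapunovFlows
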