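import Pool.Agent.R773.TE.At

/-!
# Attractors of toral extensions

`DiffM n N r` is `Diff^r(N)` and `strongTop n N r` its `C^r` topology (`Pool/Agent/H718R2/G0.lean`),
`IsHypLin`: `Pool/Agent/H922R3/CL/Defs.lean`, `IsHypAut`, `IsToral`, `IsExt`, `FibLip`, `ProdDiff`:
`Pool/Agent/R773/TE/Defs.lean`, `Spectral`, `IsComp`, `IsLimit`: `Pool/Agent/R773/TE/AtDefs.lean`,
`FiniteAttractors`: `Pool/Agent/H728R2/FA/Defs.lean`, `Comp`, `Dissipative`:
`Pool/Agent/R552/FB/Defs.lean`, `Pool/Agent/R552/FA/Ham.lean`.
-/

set_option autoImplicit false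

open scoped Manifold ContDiff Topology
open MeasureTheory

universe u v w

namespace Pool.Agent.Results.MP_3a2b62_an.ToralExtensions

open Pool.Agent.H718R2.G Pool.Agent.TH80.OMS Pool.Agent.R773.TE

/-- Let `1 ≤ r ≤ ∞`, let `N` and `B` be closed manifolds, `K` a smooth manifold homeomorphic (by
`τ`) to a torus `𝕋 = W / Λ` of positive dimension, `Θ : B × K → N` a diffeomorphism, `A` a
hyperbolic automorphism of `𝕋`, and let `F ∈ Diff^r(N)` be, in the coordinates `Θ`, `τ`, a skew
product `(b, y) ↦ (f b, A y + φ (b, y))` over `f ∈ Diff^r(B)`, with `φ : B × 𝕋 → W` continuous and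
`ε₀`-Lipschitz along the fibres, where `ε₀ > 0` depends only on `A` (for instance, the fibre maps
of `F` are affine). Suppose that each neighbourhood of `f` in `Diff^r(B)` contains some `g` with the
property `Spectral` (the nonwandering set is contained in the union of finitely many pairwise
disjoint closed invariant transitive sets, for instance `g` satisfies Axiom A) or `IsComp` (`g` is a
finite composition of time-one maps of vector fields `J dh`). Then each neighbourhood of `F` in
`Diff^r(N)` contains some `G` which has finitely many attractors covering `N`, for every measure on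
`N`; moreover `G` is a toral extension of some `g ∈ Diff^r(B)` with the same `φ`, and both `g` and
`G` have the property `Spectral`. -/
theorem result {n d k : ℕ} {W : Type} [NormedAddCommGroup W] [NormedSpace ℝ W]
    [FiniteDimensional ℝ W] [Nontrivial W] {Λ : AddSubgroup W} [DiscreteTopology Λ]
    [IsClosed (Λ : Set W)] {A : W ≃L[ℝ] W} (hA : IsHypAut A Λ) :
    ∃ ε₀ > 0, ∀ (N : Type u) [TopologicalSpace N] [T2Space N] [CompactSpace N]
      [ChartedSpace (V n) N] [IsManifold (𝓡 n) ∞ N]
      (B : Type v) [TopologicalSpace B] [T2Space B] [CompactSpace B]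
      [ChartedSpace (V d) B] [IsManifold (𝓡 d) ∞ B]
      (K : Type w) [TopologicalSpace K] [ChartedSpace (V k) K] [IsManifold (𝓡 k) ∞ K]
      (r : ℕ∞) (F : DiffM n N r) (f : DiffM d B r) (Θ : ProdDiff n d k N B K)
      (φ : B × (W ⧸ Λ) → W), 1 ≤ r → IsExt A Θ F f φ → FibLip ε₀ φ → IsLimit f →
      ∀ U : Set (DiffM n N r), IsOpen[strongTop n N r] U → F ∈ U →
        ∃ G ∈ U, ∃ g : DiffM d B r, IsExt A Θ G g φ ∧ Spectral g ∧ Spectral G ∧
          ∀ (_ : MeasurableSpace N) (μ : Measure N),
            Pool.Agent.H728R2.FA.FiniteAttractors μ G :=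
  attr_final hA

end Pool.Agent.Results.MP_3a2b62_an.ToralExtensions
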